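import Mathlib

/-!
# Strongly non-contractive iterated function systems on Euclidean space with a global attractor

For every `n ≥ 1` we construct an IFS consisting of two maps on `ℝⁿ` which has an attractor whose
basin is all of `ℝⁿ`, is minimal with that attractor, and none of whose maps is nonexpansive for any
metric inducing the Euclidean topology.
-/

namespace Pool.Agent.Results.MP_b8546e_an.GlobalAttractor

open Filter Topology Set

/-- The Hutchinson operator `B ↦ ⋃_{f ∈ F} f(B)` of a finite family of maps. -/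
def hutch {X : Type} (F : Finset (X → X)) (B : Set X) : Set X := ⋃ f ∈ F, f '' B

/-- `F^k(B) → A` in the Hausdorff distance for every nonempty compact `B ⊆ U`,
where `U` is an open set containing `A`. -/
def Attracts {X : Type} [MetricSpace X] (F : Finset (X → X)) (A U : Set X) : Prop :=
  IsOpen U ∧ A ⊆ U ∧ ∀ B : Set X, IsCompact B → B.Nonempty → B ⊆ U →
    Tendsto (fun k : ℕ => Metric.hausdorffEDist ((hutch F)^[k] B) A) atTop (𝓝 0)

/-- `A` is an attractor of `F`. -/
def IsAttractor {X : Type} [MetricSpace X] (F : Finset (X → X)) (A : Set X) : Prop :=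
  IsCompact A ∧ A.Nonempty ∧ hutch F A = A ∧ ∃ U, Attracts F A U

/-- The basin of `A`: the union of all open sets `U ⊇ A` all of whose nonempty compact subsets
converge to `A` under iteration of the Hutchinson operator. -/
def basin {X : Type} [MetricSpace X] (F : Finset (X → X)) (A : Set X) : Set X :=
  ⋃₀ {U | Attracts F A U}

/-- `d` is a metric on the set `X`. -/
structure IsMetric {X : Type} (d : X → X → ℝ) : Prop where
  nonneg : ∀ x y, 0 ≤ d x y
  eq_zero_iff : ∀ x y, d x y = 0 ↔ x = y
  symm : ∀ x y, d x y = d y x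
  triangle : ∀ x y z, d x z ≤ d x y + d y z

/-- The metric `d` induces the given topology of `X`. -/
def Induces {X : Type} [TopologicalSpace X] (d : X → X → ℝ) : Prop :=
  ∀ s : Set X, IsOpen s ↔ ∀ x ∈ s, ∃ ε > 0, ∀ y, d x y < ε → y ∈ s

/-- `Lip(f, d) = sup_{x ≠ y} d(f x, f y) / d(x, y)` as an element of `[0, ∞]`. -/
noncomputable def lip {X : Type} (f : X → X) (d : X → X → ℝ) : ENNReal :=
  ⨆ x, ⨆ y, ⨆ _ : x ≠ y, ENNReal.ofReal (d (f x) (f y) / d x y)

/-! ### Unstable fixed points obstruct nonexpansiveness -/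

lemma one_lt_lip {X : Type} [TopologicalSpace X] {f : X → X} {p q : X} (hp : f p = p)
    (hpq : p ≠ q) (y : ℕ → X) (hy : Tendsto y atTop (𝓝 p)) (hk : ∀ k, ∃ m : ℕ, f^[m] (y k) = q)
    (d : X → X → ℝ) (hd : IsMetric d) (hi : Induces d) : 1 < lip f d := by
  by_contra hle
  push Not at hle
  -- `f` is nonexpansive
  have hne : ∀ x y, d (f x) (f y) ≤ d x y := by
    intro x y
    by_cases hxy : x = y
    · subst hxy
      rw [(hd.eq_zero_iff _ _).2 rfl, (hd.eq_zero_iff _ _).2 rfl]
    · have h1 : ENNReal.ofReal (d (f x) (f y) / d x y) ≤ 1 := by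
        refine le_trans ?_ hle
        unfold lip
        exact le_iSup_of_le x (le_iSup_of_le y (le_iSup_of_le hxy le_rfl))
      have hpos : 0 < d x y := by
        rcases (hd.nonneg x y).lt_or_eq with h | h
        · exact h
        · exact absurd ((hd.eq_zero_iff x y).1 h.symm) hxy
      rw [ENNReal.ofReal_le_one, div_le_one hpos] at h1
      exact h1
  have hit : ∀ (m : ℕ) x y, d (f^[m] x) (f^[m] y) ≤ d x y := by
    intro m
    induction m with
    | zero => intro x y; simp
    | succ m ih =>
      intro x y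
      rw [Function.iterate_succ_apply', Function.iterate_succ_apply']
      exact (hne _ _).trans (ih x y)
  have hpm : ∀ m, f^[m] p = p := fun m => Function.iterate_fixed hp m
  have hδ : 0 < d p q := by
    rcases (hd.nonneg p q).lt_or_eq with h | h
    · exact h
    · exact absurd ((hd.eq_zero_iff p q).1 h.symm) hpq
  -- the `d`-ball around `p` of radius `d p q` is a neighbourhood of `p`
  have hopen : IsOpen {z | d p z < d p q} := by
    rw [hi]
    intro x hx
    refine ⟨d p q - d p x, sub_pos.2 hx, fun y hy => ?_⟩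
    have := hd.triangle p x y
    simp only [mem_ofPred_eq]
    linarith
  have hmem : {z | d p z < d p q} ∈ 𝓝 p := by
    refine hopen.mem_nhds ?_
    simp only [mem_ofPred_eq]
    rw [(hd.eq_zero_iff p p).2 rfl]
    exact hδ
  obtain ⟨k, hk'⟩ := (hy.eventually hmem).exists
  obtain ⟨m, hm⟩ := hk k
  have h1 := hit m p (y k)
  rw [hpm, hm] at h1
  exact absurd hk' (not_lt.2 h1)

/-! ### The maps on the line -/

/-- Clamped Chebyshev map. -/
noncomputable def cheb (x : ℝ) : ℝ := 2 * (max (-1) (min 1 x)) ^ 2 - 1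

/-- Clamped doubling around the origin. -/
noncomputable def dbl (u x : ℝ) : ℝ := max u (min (1 / 2) (2 * x))

lemma continuous_cheb : Continuous cheb := by unfold cheb; fun_prop
lemma continuous_dbl (u : ℝ) : Continuous (dbl u) := by unfold dbl; fun_prop

lemma clamp_of_mem {x : ℝ} (hx : x ∈ Icc (-1 : ℝ) 1) : max (-1) (min 1 x) = x := by
  rw [min_eq_right hx.2, max_eq_right hx.1]

lemma cheb_mem (x : ℝ) : cheb x ∈ Icc (-1 : ℝ) 1 := by
  unfold cheb
  have h1 : max (-1) (min 1 x) ≤ (1 : ℝ) := max_le (by norm_num) (min_le_left _ _)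
  have h2 : (-1 : ℝ) ≤ max (-1) (min 1 x) := le_max_left _ _
  constructor <;> nlinarith

lemma cheb_cos (θ : ℝ) : cheb (Real.cos θ) = Real.cos (2 * θ) := by
  unfold cheb
  rw [clamp_of_mem ⟨Real.neg_one_le_cos θ, Real.cos_le_one θ⟩, Real.cos_two_mul]

lemma cheb_iter_cos (k : ℕ) (θ : ℝ) : cheb^[k] (Real.cos θ) = Real.cos (2 ^ k * θ) := by
  induction k generalizing θ with
  | zero => simp
  | succ k ih =>
    rw [Function.iterate_succ_apply, cheb_cos, ih]
    congr 1
    ring

/-- There is a real `t` whose doubling orbit modulo one is dense, with `cos (2 π t)` in a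
prescribed range. -/
lemma exists_dense_orbit : ∃ u : ℝ, -1 / 2 < u ∧ u < 0 ∧
    ∀ y ∈ Icc (-1 : ℝ) 1, ∀ ε > 0, ∃ k : ℕ, |cheb^[k] u - y| < ε := by
  -- the open dense sets
  let G : ℚ × ℚ → Set ℝ := fun ab => {t : ℝ | (ab.1 : ℝ) < ab.2 →
    ∃ k : ℕ, ∃ m : ℤ, (ab.1 : ℝ) < 2 ^ k * t + m ∧ 2 ^ k * t + m < ab.2}
  have hGo : ∀ ab, IsOpen (G ab) := by
    intro ab
    by_cases h : (ab.1 : ℝ) < ab.2
    · have : G ab = ⋃ k : ℕ, ⋃ m : ℤ, {t : ℝ | (ab.1 : ℝ) < 2 ^ k * t + m ∧
          2 ^ k * t + m < ab.2} := by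
        ext t
        simp only [G, mem_ofPred_eq, mem_iUnion]
        exact ⟨fun h' => h' h, fun h' _ => h'⟩
      rw [this]
      refine isOpen_iUnion fun k => isOpen_iUnion fun m => ?_
      refine IsOpen.and (isOpen_lt ?_ ?_) (isOpen_lt ?_ ?_) <;> fun_prop
    · have : G ab = univ := by
        ext t
        simp only [G, mem_ofPred_eq, mem_univ, iff_true]
        exact fun h' => absurd h' h
      rw [this]
      exact isOpen_univ
  have hGd : ∀ ab, Dense (G ab) := by
    intro ab
    rw [Metric.dense_iff]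
    intro t r hr
    by_cases h : (ab.1 : ℝ) < ab.2
    · obtain ⟨k, hk⟩ := exists_pow_lt_of_lt_one (show (0 : ℝ) < r by positivity)
        (show (1 / 2 : ℝ) < 1 by norm_num)
      set v : ℝ := (ab.1 + ab.2) / 2 with hv
      set m : ℤ := ⌊2 ^ k * t - v⌋ with hm
      have hm1 : (m : ℝ) ≤ 2 ^ k * t - v := Int.floor_le _
      have hm2 : 2 ^ k * t - v < m + 1 := Int.lt_floor_add_one _
      have hpos : (0 : ℝ) < 2 ^ k := by positivity
      refine ⟨(v + m) / 2 ^ k, ?_, ?_⟩
      · rw [Metric.mem_ball, Real.dist_eq]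
        have h3 : (v + m) / 2 ^ k - t = (v + m - 2 ^ k * t) / 2 ^ k := by
          field_simp
        rw [h3, abs_div, abs_of_pos hpos]
        have h4 : |v + m - 2 ^ k * t| ≤ 1 := by
          rw [abs_le]
          constructor <;> linarith
        have h5 : (1 / 2 : ℝ) ^ k = 1 / 2 ^ k := by
          rw [div_pow, one_pow]
        calc |v + m - 2 ^ k * t| / 2 ^ k ≤ 1 / 2 ^ k := by gcongr
          _ < r := by rw [← h5]; exact hk
      · intro _
        refine ⟨k, -m, ?_⟩
        have h3 : (2 : ℝ) ^ k * ((v + m) / 2 ^ k) + ((-m : ℤ) : ℝ) = v := by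
          push_cast
          field_simp
          ring
        rw [h3]
        constructor <;> linarith
    · refine ⟨t, Metric.mem_ball_self hr, fun h' => absurd h' h⟩
  have hdense : Dense (⋂ ab, G ab) := dense_iInter_of_isOpen hGo hGd
  -- choose `t` near `0.3`
  have hcont : Continuous fun t : ℝ => Real.cos (2 * Real.pi * t) := by fun_prop
  have hO : IsOpen {t : ℝ | -1 / 2 < Real.cos (2 * Real.pi * t) ∧
      Real.cos (2 * Real.pi * t) < 0} := by
    refine IsOpen.and (isOpen_lt ?_ ?_) (isOpen_lt ?_ ?_) <;> fun_prop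
  have hne : ({t : ℝ | -1 / 2 < Real.cos (2 * Real.pi * t) ∧
      Real.cos (2 * Real.pi * t) < 0}).Nonempty := by
    refine ⟨7 / 24, ?_, ?_⟩
    · have h1 : 2 * Real.pi * (7 / 24) = Real.pi - 5 * Real.pi / 12 := by ring
      rw [h1, Real.cos_pi_sub]
      have h2 : Real.cos (5 * Real.pi / 12) < Real.cos (Real.pi / 3) := by
        apply Real.cos_lt_cos_of_nonneg_of_le_pi
        · positivity
        · nlinarith [Real.pi_pos]
        · nlinarith [Real.pi_pos]
      rw [Real.cos_pi_div_three] at h2
      linarith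
    · have h1 : 2 * Real.pi * (7 / 24) = Real.pi - 5 * Real.pi / 12 := by ring
      rw [h1, Real.cos_pi_sub]
      have h2 : 0 < Real.cos (5 * Real.pi / 12) := by
        apply Real.cos_pos_of_mem_Ioo
        constructor <;> nlinarith [Real.pi_pos]
      linarith
  obtain ⟨t, ht, htG⟩ := hdense.inter_open_nonempty _ hO hne
  refine ⟨Real.cos (2 * Real.pi * t), ht.1, ht.2, ?_⟩
  intro y hy ε hε
  -- `y = cos (2 π s)`
  set s : ℝ := Real.arccos y / (2 * Real.pi) with hs
  have hys : Real.cos (2 * Real.pi * s) = y := by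
    rw [hs, mul_div_cancel₀ _ (by positivity)]
    exact Real.cos_arccos hy.1 hy.2
  have hnh : {z : ℝ | |Real.cos (2 * Real.pi * z) - y| < ε} ∈ 𝓝 s := by
    have : IsOpen {z : ℝ | |Real.cos (2 * Real.pi * z) - y| < ε} := by
      refine isOpen_lt ?_ ?_ <;> fun_prop
    refine this.mem_nhds ?_
    simp only [mem_ofPred_eq]
    rw [hys, sub_self, abs_zero]
    exact hε
  obtain ⟨δ, hδ, hball⟩ := Metric.mem_nhds_iff.1 hnh
  obtain ⟨a, ha1, ha2⟩ := exists_rat_btwn (show s - δ < s by linarith)
  obtain ⟨b, hb1, hb2⟩ := exists_rat_btwn (show s < s + δ by linarith)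
  have hab : (a : ℝ) < b := ha2.trans hb1
  have hmem := mem_iInter.1 htG (a, b)
  obtain ⟨k, m, h1, h2⟩ := hmem hab
  refine ⟨k, ?_⟩
  rw [cheb_iter_cos]
  have h3 : (2 ^ k * t + m : ℝ) ∈ Metric.ball s δ := by
    rw [Metric.mem_ball, Real.dist_eq, abs_lt]
    simp only at h1 h2
    constructor <;> linarith
  have h4 := hball h3
  simp only [mem_ofPred_eq] at h4
  have h5 : Real.cos (2 * Real.pi * (2 ^ k * t + m)) = Real.cos (2 ^ k * (2 * Real.pi * t)) := by
    have : 2 * Real.pi * (2 ^ k * t + m) = 2 ^ k * (2 * Real.pi * t) + m * (2 * Real.pi) := by ring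
    rw [this, Real.cos_add_int_mul_two_pi]
  rw [h5] at h4
  exact h4

lemma dbl_mem {u : ℝ} (hu : u ≤ 1 / 2) (x : ℝ) : u ≤ dbl u x ∧ dbl u x ≤ 1 / 2 :=
  ⟨le_max_left _ _, max_le hu (min_le_left _ _)⟩

lemma dbl_cheb_dbl {u : ℝ} (h1 : -1 / 2 < u) (h2 : u < 0) (x : ℝ) :
    dbl u (cheb (dbl u x)) = u := by
  obtain ⟨h3, h4⟩ := dbl_mem (u := u) (by linarith) x
  set y := dbl u x with hy
  have h5 : cheb y ≤ -1 / 2 := by
    unfold cheb
    rw [clamp_of_mem ⟨by linarith, by linarith⟩]
    nlinarith
  unfold dbl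
  rw [max_eq_left]
  exact (min_le_right _ _).trans (by linarith)

lemma hutch_mem {X : Type} {F : Finset (X → X)} {B : Set X} {f : X → X} (hf : f ∈ F) {x : X}
    (hx : x ∈ B) : f x ∈ hutch F B := by
  unfold hutch
  simp only [mem_iUnion]
  exact ⟨f, hf, x, hx, rfl⟩

lemma hutch_iter_mem {X : Type} {F : Finset (X → X)} {B : Set X} {f : X → X} (hf : f ∈ F) {x : X}
    {k : ℕ} (hx : x ∈ (hutch F)^[k] B) : f x ∈ (hutch F)^[k + 1] B := by
  rw [Function.iterate_succ_apply']
  exact hutch_mem hf hx

lemma hutch_subset {X : Type} {F : Finset (X → X)} {A : Set X} (h : ∀ f ∈ F, ∀ x, f x ∈ A)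
    (B : Set X) : hutch F B ⊆ A := by
  intro y hy
  unfold hutch at hy
  simp only [mem_iUnion] at hy
  obtain ⟨f, hf, x, _, rfl⟩ := hy
  exact h f hf x

lemma hutch_singleton_iter {X : Type} (g : X → X) (x : X) (k : ℕ) :
    (hutch {g})^[k] {x} = {g^[k] x} := by
  induction k with
  | zero => simp
  | succ k ih =>
    rw [Function.iterate_succ_apply', ih, Function.iterate_succ_apply']
    unfold hutch
    simp

/-- A single map has no attractor with more than one point. -/
lemma not_isAttractor_singleton {X : Type} [MetricSpace X] (g : X → X) (A : Set X) {a b : X}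
    (ha : a ∈ A) (hb : b ∈ A) (hab : a ≠ b) : ¬ IsAttractor {g} A := by
  rintro ⟨_, _, _, U, _, hAU, hU⟩
  have h1 := hU {a} isCompact_singleton (singleton_nonempty a) (singleton_subset_iff.2 (hAU ha))
  simp only [hutch_singleton_iter] at h1
  have h2 : ∀ k, edist a b ≤ 2 * Metric.hausdorffEDist {g^[k] a} A := by
    intro k
    set z := g^[k] a
    have h3 : ∀ y ∈ A, edist y z ≤ Metric.hausdorffEDist {z} A := by
      intro y hy
      have := Metric.infEDist_le_hausdorffEDist_of_mem (t := {z}) hy
      rw [Metric.infEDist_singleton, Metric.hausdorffEDist_comm] at this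
      exact this
    calc edist a b ≤ edist a z + edist z b := edist_triangle _ _ _
      _ ≤ Metric.hausdorffEDist {z} A + Metric.hausdorffEDist {z} A := by
          gcongr
          · exact h3 a ha
          · rw [edist_comm]; exact h3 b hb
      _ = 2 * Metric.hausdorffEDist {z} A := by rw [two_mul]
  have h4 : Tendsto (fun k : ℕ => 2 * Metric.hausdorffEDist {g^[k] a} A) atTop (𝓝 (2 * 0)) :=
    ENNReal.Tendsto.const_mul h1 (Or.inr (by simp))
  rw [mul_zero] at h4
  have h5 : edist a b ≤ 0 := ge_of_tendsto' h4 h2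
  exact hab (edist_le_zero.1 h5)

lemma not_isAttractor_empty {X : Type} [MetricSpace X] (A : Set X) :
    ¬ IsAttractor (∅ : Finset (X → X)) A := by
  rintro ⟨_, hne, h, _⟩
  unfold hutch at h
  simp at h
  rw [← h] at hne
  exact not_nonempty_empty hne

/-! ### Lifting to `ℝⁿ` -/

section lift

variable {n : ℕ} (i₀ : Fin n)

/-- The map `x ↦ f(x_{i₀}) e_{i₀}` of `ℝⁿ`. -/
noncomputable def lift (f : ℝ → ℝ) (x : EuclideanSpace ℝ (Fin n)) : EuclideanSpace ℝ (Fin n) :=
  EuclideanSpace.single i₀ (f (x i₀))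

lemma single_apply_self (t : ℝ) : (EuclideanSpace.single i₀ t : EuclideanSpace ℝ (Fin n)) i₀ = t := by
  simp

lemma edist_single (s t : ℝ) : edist (EuclideanSpace.single i₀ s : EuclideanSpace ℝ (Fin n))
    (EuclideanSpace.single i₀ t) = edist s t := by
  simp

lemma continuous_single : Continuous fun t : ℝ =>
    (EuclideanSpace.single i₀ t : EuclideanSpace ℝ (Fin n)) := by
  apply Isometry.continuous
  intro s t
  exact edist_single i₀ s t

lemma continuous_lift {f : ℝ → ℝ} (hf : Continuous f) : Continuous (lift i₀ f) := by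
  unfold lift
  refine (continuous_single i₀).comp (hf.comp ?_)
  fun_prop

lemma lift_single (f : ℝ → ℝ) (t : ℝ) :
    lift i₀ f (EuclideanSpace.single i₀ t) = EuclideanSpace.single i₀ (f t) := by
  unfold lift
  rw [single_apply_self]

lemma lift_iter_single (f : ℝ → ℝ) (k : ℕ) (t : ℝ) :
    (lift i₀ f)^[k] (EuclideanSpace.single i₀ t) = EuclideanSpace.single i₀ (f^[k] t) := by
  induction k with
  | zero => simp
  | succ k ih => rw [Function.iterate_succ_apply', ih, lift_single, Function.iterate_succ_apply']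

end lift

/-- **Main theorem.** For every `n ≥ 1` there is an iterated function system `F` on `ℝⁿ` with an
attractor `A` whose basin is `ℝⁿ`, such that no proper subfamily of `F` has `A` as an attractor and
such that `Lip(f, d) > 1` for every `f ∈ F` and every metric `d` on `ℝⁿ` that induces the Euclidean
topology. -/
theorem result (n : ℕ) (hn : 1 ≤ n) :
    ∃ (F : Finset (EuclideanSpace ℝ (Fin n) → EuclideanSpace ℝ (Fin n)))
      (A : Set (EuclideanSpace ℝ (Fin n))),
      F.Nonempty ∧ (∀ f ∈ F, Continuous f) ∧ IsAttractor F A ∧ basin F A = univ ∧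
      (∀ G : Finset (EuclideanSpace ℝ (Fin n) → EuclideanSpace ℝ (Fin n)),
        G ⊂ F → ¬ IsAttractor G A) ∧
      ∀ d : EuclideanSpace ℝ (Fin n) → EuclideanSpace ℝ (Fin n) → ℝ,
        IsMetric d → Induces d → ∀ f ∈ F, 1 < lip f d := by
  classical
  obtain ⟨u, hu1, hu2, hu⟩ := exists_dense_orbit
  set i₀ : Fin n := ⟨0, hn⟩
  set ι : ℝ → EuclideanSpace ℝ (Fin n) := fun t => EuclideanSpace.single i₀ t with hι
  set C := lift i₀ cheb with hC
  set D := lift i₀ (dbl u) with hD
  set A : Set (EuclideanSpace ℝ (Fin n)) := ι '' Icc (-1) 1 with hA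
  have hιc : Continuous ι := continuous_single i₀
  have hCA : ∀ x, C x ∈ A := fun x => ⟨_, cheb_mem _, rfl⟩
  have hDA : ∀ x, D x ∈ A := by
    intro x
    obtain ⟨h1, h2⟩ := dbl_mem (u := u) (by linarith) (x i₀)
    exact ⟨dbl u (x i₀), ⟨by linarith, by linarith⟩, rfl⟩
  have hAc : IsCompact A := isCompact_Icc.image hιc
  have hF : ∀ f ∈ ({C, D} : Finset _), ∀ x, f x ∈ A := by
    intro f hf x
    rw [Finset.mem_insert, Finset.mem_singleton] at hf
    rcases hf with rfl | rfl
    · exact hCA x
    · exact hDA x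
  have hCF : C ∈ ({C, D} : Finset (EuclideanSpace ℝ (Fin n) → EuclideanSpace ℝ (Fin n))) :=
    Finset.mem_insert_self _ _
  have hDF : D ∈ ({C, D} : Finset (EuclideanSpace ℝ (Fin n) → EuclideanSpace ℝ (Fin n))) :=
    Finset.mem_insert_of_mem (Finset.mem_singleton_self _)
  have hinv : hutch {C, D} A = A := by
    apply Subset.antisymm (hutch_subset hF A)
    rintro _ ⟨t, ht, rfl⟩
    have h1 : C (ι (Real.cos (Real.arccos t / 2))) = ι t := by
      rw [hC, hι]
      simp only
      rw [lift_single, cheb_cos, mul_div_cancel₀ _ (by norm_num), Real.cos_arccos ht.1 ht.2]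
    rw [← h1]
    exact hutch_mem hCF ⟨_, ⟨Real.neg_one_le_cos _, Real.cos_le_one _⟩, rfl⟩
  -- the constant word
  have hconst : ∀ x, D (C (D x)) = ι u := by
    intro x
    have h1 : D x = ι (dbl u (x i₀)) := rfl
    rw [h1, hC, hι]
    simp only
    rw [lift_single, hD, lift_single, dbl_cheb_dbl hu1 hu2]
  have hit : ∀ (B : Set (EuclideanSpace ℝ (Fin n))), B.Nonempty → ∀ k,
      ((hutch {C, D})^[k] B).Nonempty := by
    intro B hB k
    induction k with
    | zero => exact hB
    | succ k ih =>
      obtain ⟨x, hx⟩ := ih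
      exact ⟨_, hutch_iter_mem hCF hx⟩
  have hu3 : ∀ (B : Set (EuclideanSpace ℝ (Fin n))), B.Nonempty → ∀ j k,
      ι (cheb^[j] u) ∈ (hutch {C, D})^[k + 3 + j] B := by
    intro B hB j k
    induction j with
    | zero =>
      obtain ⟨x, hx⟩ := hit B hB k
      have h1 := hutch_iter_mem hDF (hutch_iter_mem hCF (hutch_iter_mem hDF hx))
      rw [hconst] at h1
      exact h1
    | succ j ih =>
      have h1 := hutch_iter_mem hCF ih
      have h2 : C (ι (cheb^[j] u)) = ι (cheb^[j + 1] u) := by
        rw [hC, hι]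
        simp only
        rw [lift_single, Function.iterate_succ_apply']
      rw [h2] at h1
      exact h1
  have hattr : ∀ B : Set (EuclideanSpace ℝ (Fin n)), B.Nonempty →
      Tendsto (fun k : ℕ => Metric.hausdorffEDist ((hutch {C, D})^[k] B) A) atTop (𝓝 0) := by
    intro B hB
    rw [ENNReal.tendsto_nhds_zero]
    intro ε hε
    obtain ⟨δ, hδ0, hδ⟩ : ∃ δ : ℝ, 0 < δ ∧ ENNReal.ofReal δ ≤ ε := by
      by_cases h : ε = ⊤
      · exact ⟨1, one_pos, by rw [h]; exact le_top⟩
      · exact ⟨ε.toReal, ENNReal.toReal_pos hε.ne' h, by rw [ENNReal.ofReal_toReal h]⟩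
    obtain ⟨J, hJ⟩ : ∃ J : ℕ, ∀ y ∈ Icc (-1 : ℝ) 1, ∃ j ≤ J, |cheb^[j] u - y| < δ := by
      obtain ⟨t, ht⟩ := isCompact_Icc.elim_finite_subcover
        (fun j : ℕ => {y : ℝ | |cheb^[j] u - y| < δ})
        (fun j => isOpen_lt (by fun_prop) (by fun_prop))
        (fun y hy => by
          obtain ⟨k, hk⟩ := hu y hy δ hδ0
          exact mem_iUnion.2 ⟨k, hk⟩)
      refine ⟨t.sup id, fun y hy => ?_⟩
      have := ht hy
      simp only [mem_iUnion] at this
      obtain ⟨j, hj, hj2⟩ := this
      exact ⟨j, Finset.le_sup (f := id) hj, hj2⟩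
    filter_upwards [eventually_ge_atTop (J + 4)] with k hk
    refine Metric.hausdorffEDist_le_of_mem_edist ?_ ?_
    · intro x hx
      refine ⟨x, ?_, by simp⟩
      obtain ⟨k', rfl⟩ : ∃ k', k = k' + 1 := ⟨k - 1, by omega⟩
      rw [Function.iterate_succ_apply'] at hx
      exact hutch_subset hF _ hx
    · rintro _ ⟨y, hy, rfl⟩
      obtain ⟨j, hjJ, hj⟩ := hJ y hy
      refine ⟨ι (cheb^[j] u), ?_, ?_⟩
      · have h1 := hu3 B hB j (k - 3 - j)
        have h2 : k - 3 - j + 3 + j = k := by omega
        rw [h2] at h1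
        exact h1
      · rw [hι]
        simp only
        rw [edist_single]
        refine le_trans ?_ hδ
        rw [edist_dist, Real.dist_eq, abs_sub_comm]
        exact ENNReal.ofReal_le_ofReal hj.le
  have hAttr : Attracts {C, D} A univ :=
    ⟨isOpen_univ, subset_univ _, fun B _ hB _ => hattr B hB⟩
  have hAne : A.Nonempty := ⟨ι 0, 0, by constructor <;> norm_num, rfl⟩
  refine ⟨{C, D}, A, ⟨C, hCF⟩, ?_, ⟨hAc, hAne, hinv, univ, hAttr⟩, ?_, ?_, ?_⟩
  · intro f hf
    rw [Finset.mem_insert, Finset.mem_singleton] at hf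
    rcases hf with rfl | rfl
    · exact continuous_lift i₀ continuous_cheb
    · exact continuous_lift i₀ (continuous_dbl u)
  · apply eq_univ_of_univ_subset
    exact subset_sUnion_of_mem hAttr
  · intro G hG hGA
    have ha : ι (-1) ∈ A := ⟨-1, by constructor <;> norm_num, rfl⟩
    have hb : ι 1 ∈ A := ⟨1, by constructor <;> norm_num, rfl⟩
    have hab : ι (-1) ≠ ι 1 := by
      intro h
      have := congrArg (fun x : EuclideanSpace ℝ (Fin n) => x i₀) h
      simp only [hι, single_apply_self] at this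
      norm_num at this
    have hcard : G.card ≤ 1 := by
      have h1 := Finset.card_lt_card hG
      have h2 : ({C, D} : Finset (EuclideanSpace ℝ (Fin n) → EuclideanSpace ℝ (Fin n))).card ≤ 2 :=
        Finset.card_le_two
      omega
    rcases Finset.card_le_one_iff_subset_singleton.1 hcard with ⟨g, hg⟩
    rcases Finset.subset_singleton_iff.1 hg with rfl | rfl
    · exact not_isAttractor_empty A hGA
    · exact not_isAttractor_singleton g A ha hb hab hGA
  · intro d hd hi f hf
    rw [Finset.mem_insert, Finset.mem_singleton] at hf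
    rcases hf with rfl | rfl
    · -- the fixed point `1` of the Chebyshev map
      refine one_lt_lip (p := ι 1) (q := ι 0) ?_ ?_
        (fun k => ι (Real.cos (2⁻¹ ^ k * (Real.pi / 2)))) ?_ ?_ d hd hi
      · rw [hC, hι]
        simp only
        rw [lift_single]
        congr 1
        unfold cheb
        norm_num
      · intro h
        have := congrArg (fun x : EuclideanSpace ℝ (Fin n) => x i₀) h
        simp only [hι, single_apply_self] at this
        norm_num at this
      · have h1 : Tendsto (fun k : ℕ => (2⁻¹ : ℝ) ^ k * (Real.pi / 2)) atTop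
            (𝓝 (0 * (Real.pi / 2))) :=
          (tendsto_pow_atTop_nhds_zero_of_lt_one (by norm_num) (by norm_num)).mul_const _
        rw [zero_mul] at h1
        have h2 := (Real.continuous_cos.tendsto 0).comp h1
        rw [Real.cos_zero] at h2
        exact (hιc.tendsto 1).comp h2
      · intro k
        refine ⟨k, ?_⟩
        rw [hC, hι]
        simp only
        rw [lift_iter_single, cheb_iter_cos, ← mul_assoc, ← mul_pow]
        norm_num
    · -- the fixed point `0` of the doubling map
      refine one_lt_lip (p := ι 0) (q := ι (1 / 2)) ?_ ?_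
        (fun k => ι (2⁻¹ ^ k * (1 / 2))) ?_ ?_ d hd hi
      · rw [hD, hι]
        simp only
        rw [lift_single]
        congr 1
        unfold dbl
        rw [mul_zero, min_eq_right (by norm_num), max_eq_right hu2.le]
      · intro h
        have := congrArg (fun x : EuclideanSpace ℝ (Fin n) => x i₀) h
        simp only [hι, single_apply_self] at this
        norm_num at this
      · have h1 : Tendsto (fun k : ℕ => (2⁻¹ : ℝ) ^ k * (1 / 2)) atTop
            (𝓝 (0 * (1 / 2))) :=
          (tendsto_pow_atTop_nhds_zero_of_lt_one (by norm_num) (by norm_num)).mul_const _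
        rw [zero_mul] at h1
        exact (hιc.tendsto 0).comp h1
      · intro k
        refine ⟨k, ?_⟩
        rw [hD, hι]
        simp only
        rw [lift_iter_single]
        congr 1
        induction k with
        | zero => simp
        | succ k ih =>
          rw [Function.iterate_succ_apply]
          have h1 : dbl u (2⁻¹ ^ (k + 1) * (1 / 2)) = 2⁻¹ ^ k * (1 / 2) := by
            unfold dbl
            have h2 : (2 : ℝ) * (2⁻¹ ^ (k + 1) * (1 / 2)) = 2⁻¹ ^ k * (1 / 2) := by
              rw [pow_succ]; ring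
            have h3 : (2⁻¹ : ℝ) ^ k ≤ 1 := pow_le_one₀ (by norm_num) (by norm_num)
            have h4 : (0 : ℝ) < 2⁻¹ ^ k := by positivity
            rw [h2, min_eq_right (by linarith), max_eq_right (by linarith)]
          rw [h1, ih]

end Pool.Agent.Results.MP_b8546e_an.GlobalAttractor
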