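import Mathlib

set_option autoImplicit false

namespace Pool.Agent.Results.MP_e59eee_co.NotWeaklyAtomic

/-- A subset `D` of a poset is directed: nonempty, and any two elements of `D` have an
upper bound in `D`. -/
def IsDir {P : Type} [PartialOrder P] (D : Set P) : Prop :=
  D.Nonempty ∧ ∀ a ∈ D, ∀ b ∈ D, ∃ c ∈ D, a ≤ c ∧ b ≤ c

/-- Every directed subset has a least upper bound. -/
def UpComplete (P : Type) [PartialOrder P] : Prop :=
  ∀ D : Set P, IsDir D → ∃ s : P, IsLUB D s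

/-- `c` is compact: whenever `D` is directed with join `s` and `c ≤ s`, some `d ∈ D` has
`c ≤ d`. -/
def IsCompactElt {P : Type} [PartialOrder P] (c : P) : Prop :=
  ∀ (D : Set P) (s : P), IsDir D → IsLUB D s → c ≤ s → ∃ d ∈ D, c ≤ d

/-- Algebraic poset: up-complete, and every element is the join of a directed set of compact
elements. -/
def IsAlgebraicPoset (P : Type) [PartialOrder P] : Prop :=
  UpComplete P ∧
    ∀ x : P, ∃ D : Set P, IsDir D ∧ (∀ d ∈ D, IsCompactElt d) ∧ IsLUB D x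

/-- `v` covers `u`: `u < v` and there is no `w` with `u < w < v`. -/
def Covers {P : Type} [PartialOrder P] (v u : P) : Prop :=
  u < v ∧ ¬ ∃ w : P, u < w ∧ w < v

/-- Weakly atomic: every pair `x < y` has `x ≤ u < v ≤ y` with `v` covering `u`. -/
def WeaklyAtomic (P : Type) [PartialOrder P] : Prop :=
  ∀ x y : P, x < y → ∃ u v : P, x ≤ u ∧ u < v ∧ v ≤ y ∧ Covers v u

/-! ### The poset `Q = ℕ × ℝ` with the strict product order -/

/-- Carrier of the base poset. -/
structure Q : Type where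
  n : ℕ
  q : ℝ

@[ext] theorem Q.ext' {a b : Q} (h1 : a.n = b.n) (h2 : a.q = b.q) : a = b := by
  cases a; cases b; simp_all

/-- `(n,q) ≤ (m,p)` iff they are equal, or `n < m` and `q < p`. -/
instance : PartialOrder Q where
  le a b := a = b ∨ (a.n < b.n ∧ a.q < b.q)
  le_refl a := Or.inl rfl
  le_trans a b c hab hbc := by
    rcases hab with rfl | hab
    · exact hbc
    · rcases hbc with rfl | hbc
      · exact Or.inr hab
      · exact Or.inr ⟨hab.1.trans hbc.1, hab.2.trans hbc.2⟩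
  le_antisymm a b hab hba := by
    rcases hab with rfl | hab
    · rfl
    · rcases hba with rfl | hba
      · rfl
      · exact absurd (hab.1.trans hba.1) (lt_irrefl _)

theorem Q.le_def (a b : Q) : a ≤ b ↔ a = b ∨ (a.n < b.n ∧ a.q < b.q) := Iff.rfl

/-- The poset of ideals (nonempty directed down-sets) of `Q`, ordered by inclusion. -/
structure Idl : Type where
  carrier : Set Q
  nonempty : carrier.Nonempty
  directed : ∀ a ∈ carrier, ∀ b ∈ carrier, ∃ c ∈ carrier, a ≤ c ∧ b ≤ c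
  lower : ∀ a b : Q, a ≤ b → b ∈ carrier → a ∈ carrier

theorem Idl.ext' {I J : Idl} (h : I.carrier = J.carrier) : I = J := by
  cases I; cases J; simp_all

instance : PartialOrder Idl where
  le I J := I.carrier ⊆ J.carrier
  le_refl I := Set.Subset.refl _
  le_trans I J K h1 h2 := Set.Subset.trans h1 h2
  le_antisymm I J h1 h2 := Idl.ext' (Set.Subset.antisymm h1 h2)

theorem Idl.le_def (I J : Idl) : I ≤ J ↔ I.carrier ⊆ J.carrier := Iff.rfl

/-- Principal ideal. -/
def prin (a : Q) : Idl where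
  carrier := {b | b ≤ a}
  nonempty := ⟨a, le_refl a⟩
  directed := fun _ hb _ hc => ⟨a, le_refl a, hb, hc⟩
  lower := fun _ _ hbc hc => le_trans hbc hc

theorem prin_le_iff (a : Q) (I : Idl) : prin a ≤ I ↔ a ∈ I.carrier := by
  constructor
  · intro h
    exact h (le_refl a)
  · intro h b hb
    exact I.lower b a hb h

/-- Union of a directed family of ideals. -/
def dirUnion (D : Set Idl) (hD : IsDir D) : Idl where
  carrier := {a | ∃ I ∈ D, a ∈ I.carrier}
  nonempty := by
    obtain ⟨⟨I, hI⟩, _⟩ := hD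
    obtain ⟨a, ha⟩ := I.nonempty
    exact ⟨a, I, hI, ha⟩
  directed := by
    rintro a ⟨I, hI, ha⟩ b ⟨J, hJ, hb⟩
    obtain ⟨K, hK, hIK, hJK⟩ := hD.2 I hI J hJ
    obtain ⟨c, hc, hac, hbc⟩ := K.directed a (hIK ha) b (hJK hb)
    exact ⟨c, ⟨K, hK, hc⟩, hac, hbc⟩
  lower := by
    rintro a b hab ⟨I, hI, hb⟩
    exact ⟨I, hI, I.lower a b hab hb⟩

theorem isLUB_dirUnion (D : Set Idl) (hD : IsDir D) : IsLUB D (dirUnion D hD) := by
  constructor
  · intro I hI a ha
    exact ⟨I, hI, ha⟩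
  · intro J hJ a ha
    obtain ⟨I, hI, haI⟩ := ha
    exact hJ hI haI

theorem prin_compact (a : Q) : IsCompactElt (prin a) := by
  intro D s hD hs has
  have h1 : s = dirUnion D hD := hs.unique (isLUB_dirUnion D hD)
  subst h1
  rw [prin_le_iff] at has
  obtain ⟨I, hI, haI⟩ := has
  exact ⟨I, hI, (prin_le_iff a I).2 haI⟩

theorem idl_algebraic : IsAlgebraicPoset Idl := by
  refine ⟨fun D hD => ⟨_, isLUB_dirUnion D hD⟩, fun I => ⟨{J | ∃ a ∈ I.carrier, J = prin a}, ?_, ?_, ?_⟩⟩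
  · constructor
    · obtain ⟨a, ha⟩ := I.nonempty
      exact ⟨prin a, a, ha, rfl⟩
    · rintro _ ⟨a, ha, rfl⟩ _ ⟨b, hb, rfl⟩
      obtain ⟨c, hc, hac, hbc⟩ := I.directed a ha b hb
      exact ⟨prin c, ⟨c, hc, rfl⟩, (prin_le_iff a _).2 hac, (prin_le_iff b _).2 hbc⟩
  · rintro _ ⟨a, _, rfl⟩
    exact prin_compact a
  · constructor
    · rintro _ ⟨a, ha, rfl⟩
      exact (prin_le_iff a I).2 ha
    · intro J hJ a ha
      exact (prin_le_iff a J).1 (hJ ⟨a, ha, rfl⟩)

/-- The ideal `{(n,q) : q < r}`. -/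
def cut (r : ℝ) : Idl where
  carrier := {a | a.q < r}
  nonempty := ⟨⟨0, r - 1⟩, by simp⟩
  directed := by
    intro a ha b hb
    have ha' : a.q < r := ha
    have hb' : b.q < r := hb
    obtain ⟨z, hz1, hz2⟩ := exists_between (max_lt ha' hb')
    refine ⟨⟨max a.n b.n + 1, z⟩, hz2, Or.inr ⟨?_, ?_⟩, Or.inr ⟨?_, ?_⟩⟩
    · exact Nat.lt_succ_of_le (le_max_left _ _)
    · exact lt_of_le_of_lt (le_max_left _ _) hz1
    · exact Nat.lt_succ_of_le (le_max_right _ _)
    · exact lt_of_le_of_lt (le_max_right _ _) hz1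
  lower := by
    rintro a b (rfl | hab) hb
    · exact hb
    · exact hab.2.trans hb

theorem cut_le_cut (r s : ℝ) : cut r ≤ cut s ↔ r ≤ s := by
  constructor
  · intro h
    by_contra hlt
    push Not at hlt
    have h2 : (⟨0, s⟩ : Q) ∈ (cut s).carrier := h (show (⟨0, s⟩ : Q).q < r from hlt)
    exact lt_irrefl s h2
  · intro h a ha
    exact lt_of_lt_of_le ha h

/-- Every ideal between `cut 0` and `cut 1` is a `cut`. -/
theorem eq_cut (J : Idl) (h0 : cut 0 ≤ J) (h1 : J ≤ cut 1) : ∃ s : ℝ, J = cut s := by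
  have key : ∀ a ∈ J.carrier, ∀ m : ℕ, ∃ c ∈ J.carrier, m < c.n ∧ a.q < c.q := by
    intro a ha m
    have hk : (⟨max m a.n + 1, -1⟩ : Q) ∈ J.carrier :=
      h0 (show (-1 : ℝ) < 0 by norm_num)
    obtain ⟨c, hc, hac, hkc⟩ := J.directed a ha _ hk
    have hn : max m a.n + 1 ≤ c.n := by
      rcases hkc with h | h
      · rw [← h]
      · exact h.1.le
    refine ⟨c, hc, ?_, ?_⟩
    · exact lt_of_le_of_lt (le_max_left m a.n) (Nat.lt_of_succ_le hn)
    · rcases hac with h | h
      · exfalso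
        have : a.n < c.n := lt_of_le_of_lt (le_max_right m a.n) (Nat.lt_of_succ_le hn)
        rw [h] at this
        exact lt_irrefl _ this
      · exact h.2
  set U : Set ℝ := {q | ∃ a ∈ J.carrier, a.q = q} with hU
  have hUne : U.Nonempty := by
    obtain ⟨a, ha⟩ := J.nonempty
    exact ⟨a.q, a, ha, rfl⟩
  have hUb : BddAbove U := by
    refine ⟨1, ?_⟩
    rintro _ ⟨a, ha, rfl⟩
    exact (h1 ha).le
  refine ⟨sSup U, Idl.ext' ?_⟩
  ext a
  constructor
  · intro ha
    obtain ⟨c, hc, _, hq⟩ := key a ha 0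
    exact lt_of_lt_of_le hq (le_csSup hUb ⟨c, hc, rfl⟩)
  · intro ha
    obtain ⟨_, ⟨b, hb, rfl⟩, hab⟩ := exists_lt_of_lt_csSup hUne ha
    obtain ⟨c, hc, hn, hq⟩ := key b hb a.n
    exact J.lower a c (Or.inr ⟨hn, hab.trans hq⟩) hc

/-- In the algebraic poset `Idl` the interval from `cut 0` to `cut 1` contains no pair `u < v`
with `v` covering `u`. -/
theorem no_cover_in_interval :
    cut 0 < cut 1 ∧
      ¬ ∃ u v : Idl, cut 0 ≤ u ∧ u < v ∧ v ≤ cut 1 ∧ Covers v u := by
  refine ⟨?_, ?_⟩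
  · rw [lt_iff_le_not_ge, cut_le_cut, cut_le_cut]
    norm_num
  · rintro ⟨u, v, hxu, huv, hvy, -, hcov⟩
    obtain ⟨s, rfl⟩ := eq_cut u hxu (huv.le.trans hvy)
    obtain ⟨t, rfl⟩ := eq_cut v (hxu.trans huv.le) hvy
    rw [lt_iff_le_not_ge, cut_le_cut, cut_le_cut] at huv
    apply hcov
    refine ⟨cut ((s + t) / 2), ?_, ?_⟩
    · rw [lt_iff_le_not_ge, cut_le_cut, cut_le_cut]
      constructor
      · linarith [huv.1]
      · intro h; apply huv.2; linarith
    · rw [lt_iff_le_not_ge, cut_le_cut, cut_le_cut]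
      constructor
      · linarith [huv.1]
      · intro h; apply huv.2; linarith

/-- There is an algebraic poset which is not weakly atomic. -/
theorem result :
    ∃ (P : Type) (_ : PartialOrder P), IsAlgebraicPoset P ∧ ¬ WeaklyAtomic P :=
  ⟨Idl, inferInstance, idl_algebraic,
    fun h => no_cover_in_interval.2 (h _ _ no_cover_in_interval.1)⟩

end Pool.Agent.Results.MP_e59eee_co.NotWeaklyAtomic
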